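import Mathlib
import Pool.Agent.V7H73.DW.Ladder
import Pool.Agent.V7H73.DW.Lusin

set_option autoImplicit false

/-!
# MP_cba831_lc, Q1: a Dowker space of size `ℵ₁` without Lusin sets

It is consistent that there is a first countable, locally countable Dowker space of size `ℵ₁` while
there is no Lusin set; so the equivalence asked for in Q1 is not provable in ZFC.

The forcing notion is the product of the countable partial ladder systems on `ω₁` (ordered by
extension) and of the measure algebra of a product of many finite probability spaces. A name for an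
unbounded subset of `ω₁` meets, with a probability as close to `1` as we like, some finite set above
any given ordinal, once the ladder system part is strengthened; so the generic ladder system
catches all pairs of uncountable sets in the extension. The random functions avoid all families of
`ℵ₁` functions of the extension, so that all sets of `ℵ₁` reals are meagre. From a ladder system
which catches pairs, a space of the kind of de Caux is built on `ω₁ × ω`.
-/

namespace Pool.Agent.Results.MP_cba831_lc.DowkerNoLusinH73

open Cardinal Pool.Agent.V7H73.DW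

/-- (1) There is a nonempty forcing notion all of whose conditions force the hypothesis of (2) for
the set `ω₁`.
(2) If this hypothesis holds for some linearly ordered set `W`, then there is a Dowker space of size
`ℵ₁` which is first countable, locally countable, locally compact and a countable union of discrete
subspaces, while every set of at most `ℵ₁` reals is meagre, and there is no Lusin set. -/
theorem result :
    (∃ (P : Type) (_ : Preorder P), Nonempty P ∧
      ∀ p : P, p ∈ HypothesisN P (ℵ₁ : Cardinal.{0}).ord.ToType) ∧
    (∀ (W : Type) (_ : LinearOrder W), Hypothesis W →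
      (∃ (X : Type) (_ : TopologicalSpace X), IsDowker X ∧ FirstCountableTopology X ∧
        (∀ x : X, ∃ U : Set X, IsOpen U ∧ x ∈ U ∧ U.Countable) ∧ #X = ℵ₁ ∧
        LocallyCompactSpace X ∧
        ∃ A : ℕ → Set X, (⋃ n, A n) = Set.univ ∧ ∀ n, DiscreteTopology (A n)) ∧
      (∀ S : Set ℝ, #S ≤ ℵ₁ → IsMeagre S) ∧ ¬ ∃ L : Set ℝ, IsLusin L) := by
  refine ⟨?_, fun W _ H => conclusion H⟩
  have hcard : #(ℵ₁ : Cardinal.{0}).ord.ToType = ℵ₁ := by rw [mk_toType, card_ord]
  have hinit : ∀ x : (ℵ₁ : Cardinal.{0}).ord.ToType, (Set.Iio x).Countable := by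
    intro x
    have h := (mk_Iio_toType_ord_lt x).trans_eq Cardinal.succ_aleph0.symm
    rwa [Order.lt_succ_iff, Cardinal.mk_le_aleph0_iff] at h
  have hne : Nonempty (ℵ₁ : Cardinal.{0}).ord.ToType := Cardinal.mk_ne_zero_iff.1 (by
    rw [hcard]; exact (Cardinal.aleph0_pos.trans_le (Cardinal.aleph0_le_aleph 1)).ne')
  have hwo : WellOrd (ℵ₁ : Cardinal.{0}).ord.ToType := by
    intro A hA
    obtain ⟨a, ha, h⟩ := WellFounded.has_min
      (wellFounded_lt (α := (ℵ₁ : Cardinal.{0}).ord.ToType)) A hA
    exact ⟨a, ha, fun x hx => not_lt.1 (h x hx)⟩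
  have hc : CtbleInit (ℵ₁ : Cardinal.{0}).ord.ToType := by
    intro w
    rcases (Set.Iio w).eq_empty_or_nonempty with h | h
    · refine ⟨fun _ => w, fun x hx => ?_⟩
      have : x ∈ Set.Iio w := hx
      rw [h] at this
      exact absurd this (Set.notMem_empty x)
    · obtain ⟨e, he⟩ := (hinit w).exists_eq_range h
      refine ⟨e, fun x hx => ?_⟩
      have : x ∈ Set.Iio w := hx
      rw [he] at this
      exact this
  have hb : SeqBdd (ℵ₁ : Cardinal.{0}).ord.ToType := by
    intro f
    by_contra hcon
    push Not at hcon
    have huniv : (Set.univ : Set (ℵ₁ : Cardinal.{0}).ord.ToType) ⊆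
        ⋃ n, (Set.Iio (f n) ∪ {f n}) := by
      intro w _
      obtain ⟨n, hn⟩ := hcon w
      rw [Set.mem_iUnion]
      refine ⟨n, ?_⟩
      rcases hn.lt_or_eq with h | h
      · exact Or.inl h
      · exact Or.inr h
    have hcount : (Set.univ : Set (ℵ₁ : Cardinal.{0}).ord.ToType).Countable :=
      (Set.countable_iUnion fun n => (hinit (f n)).union (Set.countable_singleton _)).mono huniv
    rw [Set.countable_univ_iff, ← Cardinal.mk_le_aleph0_iff, hcard] at hcount
    exact absurd hcount (not_le.2 (by rw [← Cardinal.succ_aleph0]; exact Order.lt_succ _))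
  refine ⟨Lad (ℵ₁ : Cardinal.{0}).ord.ToType × Ev (mu (Set (Par (Lad (ℵ₁ : Cardinal.{0}).ord.ToType)
    (ℵ₁ : Cardinal.{0}).ord.ToType))), inferInstance, ⟨⟨⟨∅, fun _ => ∅, Set.countable_empty,
      fun _ h => absurd h (Set.notMem_empty _), fun _ h => absurd h (Set.notMem_empty _)⟩,
      ⟨Set.univ, MeasurableSet.univ, ?_⟩⟩⟩, fun p => forced_hypothesis hne hwo hc hb p⟩
  rw [MeasureTheory.measure_univ]
  exact one_ne_zero

end Pool.Agent.Results.MP_cba831_lc.DowkerNoLusinH73
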